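import Pool.Agent.helper17.CH.SpecQ

set_option autoImplicit false

namespace Pool.Agent.CH

open Finset ArithmeticFunction MeasureTheory

private lemma CBL_sqrt : 1 ≤ √(2 * Real.pi) := by
  rw [Real.one_le_sqrt]
  linarith [Real.pi_gt_three]

private lemma CBL_deriv (δ : ℝ) (u : ℝ) :
    HasDerivAt (ph δ) (Real.exp (-(u ^ 2) / (2 * δ ^ 2)) * (-(2 * u) / (2 * δ ^ 2)) /
      (δ * √(2 * Real.pi))) u := by
  unfold ph
  have h1 : HasDerivAt (fun u : ℝ => -(u ^ 2) / (2 * δ ^ 2)) (-(2 * u) / (2 * δ ^ 2)) u := by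
    have h2 := ((hasDerivAt_pow 2 u).neg).div_const (2 * δ ^ 2)
    simp only [Nat.cast_ofNat, Nat.add_one_sub_one, pow_one] at h2
    exact h2
  exact (h1.exp).div_const _

private lemma CBL_lip (δ : ℝ) (hδ : 0 < δ) (a b : ℝ) : |ph δ a - ph δ b| ≤ 1 / δ ^ 2 * |a - b| := by
  have hs := CBL_sqrt
  have hs0 : 0 < √(2 * Real.pi) := by linarith
  have h := Convex.norm_image_sub_le_of_norm_hasDerivWithin_le (s := Set.univ) (C := 1 / δ ^ 2)
    (x := b) (y := a) (f := ph δ) (fun u _ => (CBL_deriv δ u).hasDerivWithinAt) (fun u _ => ?_)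
    convex_univ (Set.mem_univ _) (Set.mem_univ _)
  · exact h
  · rw [Real.norm_eq_abs, abs_div, abs_mul, abs_of_pos (Real.exp_pos _),
      abs_of_pos (by positivity : 0 < δ * √(2 * Real.pi)), abs_div, abs_neg,
      abs_of_pos (by positivity : (0 : ℝ) < 2 * δ ^ 2), abs_mul, abs_of_pos (by norm_num : (0:ℝ) < 2)]
    -- x exp(-x^2/2) ≤ 1 with x = |u|/δ
    have h1 : |u| / δ ≤ Real.exp (u ^ 2 / (2 * δ ^ 2)) := by
      have h2 := Real.add_one_le_exp (u ^ 2 / (2 * δ ^ 2))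
      have h3 : u ^ 2 / (2 * δ ^ 2) = (|u| / δ) ^ 2 / 2 := by
        rw [div_pow, sq_abs]
        field_simp
      rw [h3] at h2 ⊢
      nlinarith [sq_nonneg (|u| / δ - 1)]
    have h4 : Real.exp (-(u ^ 2) / (2 * δ ^ 2)) = (Real.exp (u ^ 2 / (2 * δ ^ 2)))⁻¹ := by
      rw [neg_div, Real.exp_neg]
    rw [h4]
    have hE := Real.exp_pos (u ^ 2 / (2 * δ ^ 2))
    have h5 : (Real.exp (u ^ 2 / (2 * δ ^ 2)))⁻¹ * (2 * |u| / (2 * δ ^ 2)) / (δ * √(2 * Real.pi)) =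
        (1 / δ ^ 2) * ((|u| / δ) / Real.exp (u ^ 2 / (2 * δ ^ 2))) * (√(2 * Real.pi))⁻¹ := by
      field_simp
    rw [h5]
    have h6 : (|u| / δ) / Real.exp (u ^ 2 / (2 * δ ^ 2)) ≤ 1 := (div_le_one hE).2 h1
    have h7 : (√(2 * Real.pi))⁻¹ ≤ 1 := inv_le_one_of_one_le₀ hs
    calc (1 / δ ^ 2) * ((|u| / δ) / Real.exp (u ^ 2 / (2 * δ ^ 2))) * (√(2 * Real.pi))⁻¹
        ≤ (1 / δ ^ 2) * 1 * 1 := by gcongr
      _ = _ := by ring

private lemma CBL_ph_bd (δ : ℝ) (hδ : 0 < δ) (u : ℝ) : ‖ph δ u‖ ≤ 1 / δ := by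
  have hs := CBL_sqrt
  unfold ph
  rw [Real.norm_eq_abs, abs_div, abs_of_pos (Real.exp_pos _),
    abs_of_pos (by positivity : 0 < δ * √(2 * Real.pi))]
  have h1 : Real.exp (-(u ^ 2) / (2 * δ ^ 2)) ≤ 1 := by
    rw [Real.exp_le_one_iff, neg_div, neg_nonpos]
    positivity
  have h2 : δ ≤ δ * √(2 * Real.pi) := by nlinarith
  gcongr

private lemma CBL_Ph_lip (ccb : CCB_stmt) (N : ℕ) (hN : 1 ≤ N) (c : ℕ → ℝ) (hc : ∀ n, |c n| ≤ 1)
    (δ : ℝ) (hδ : 0 < δ) (v v' : ℝ) : |Ph N c δ v - Ph N c δ v'| ≤ 3 * |v - v'| / δ ^ 2 := by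
  obtain ⟨hC1, hC2, hC3⟩ := ccb.2.1 N c hc
  have hint : ∀ v, Integrable (fun w => CC N c w * ph δ (v - w)) := by
    intro v
    refine hC3.mul_bdd (c := 1 / δ) ?_ (Filter.Eventually.of_forall fun w => CBL_ph_bd δ hδ _)
    have : Continuous (fun w => ph δ (v - w)) := by
      unfold ph
      fun_prop
    exact this.aestronglyMeasurable
  unfold Ph
  rw [← integral_sub (hint v) (hint v')]
  have hN' : (0 : ℝ) < N := by exact_mod_cast hN
  have hg : Integrable ((Set.Ioc (3 * Real.log N) (3 * Real.log (2 * N))).indicator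
      (fun _ : ℝ => |v - v'| / δ ^ 2)) := by
    rw [integrable_indicator_iff measurableSet_Ioc]
    refine integrableOn_const ?_
    rw [Real.volume_Ioc]
    exact ENNReal.ofReal_ne_top
  have h1 := norm_integral_le_of_norm_le (f := fun w => CC N c w * ph δ (v - w) -
    CC N c w * ph δ (v' - w)) hg (Filter.Eventually.of_forall fun w => ?_)
  · rw [integral_indicator_const _ measurableSet_Ioc, Measure.real, Real.volume_Ioc,
      ENNReal.toReal_ofReal (by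
        rw [sub_nonneg]
        have := Real.log_le_log hN' (by linarith : (N : ℝ) ≤ 2 * N)
        linarith), smul_eq_mul, Real.log_mul (by norm_num) hN'.ne'] at h1
    refine h1.trans ?_
    have h2 : Real.log 2 ≤ 1 := by
      have := Real.log_two_lt_d9
      linarith
    have h3 : 0 ≤ |v - v'| / δ ^ 2 := by positivity
    have h4 : 3 * (Real.log 2 + Real.log N) - 3 * Real.log N = 3 * Real.log 2 := by ring
    rw [h4, mul_div_assoc]
    gcongr
    linarith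
  · show ‖CC N c w * ph δ (v - w) - CC N c w * ph δ (v' - w)‖ ≤ _
    rw [← mul_sub, norm_mul, Real.norm_eq_abs, Real.norm_eq_abs]
    by_cases hw : CC N c w = 0
    · rw [hw, abs_zero, zero_mul]
      exact Set.indicator_nonneg (fun _ _ => by positivity) _
    · rw [Set.indicator_of_mem (show w ∈ Set.Ioc (3 * Real.log N) (3 * Real.log (2 * N)) from
        hC2 w hw)]
      have h2 := CBL_lip δ hδ (v - w) (v' - w)
      have h3 : v - w - (v' - w) = v - v' := by ring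
      rw [h3] at h2
      calc |CC N c w| * |ph δ (v - w) - ph δ (v' - w)| ≤ 1 * (1 / δ ^ 2 * |v - v'|) := by
            gcongr
            exact hC1 w
        _ = _ := by ring

private lemma CBL_split (S : Finset ℕ) (f : ℕ → ℝ) (a h : ℝ) (hh : 0 ≤ h) (R : ℕ) :
    ∑ b ∈ S.filter (fun b : ℕ => a < (b : ℝ) ∧ (b : ℝ) ≤ a + R * h), f b =
      ∑ i ∈ range R, ∑ b ∈ S.filter (fun b : ℕ => a + i * h < (b : ℝ) ∧
        (b : ℝ) ≤ a + i * h + h), f b := by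
  induction R with
  | zero =>
    rw [range_zero, sum_empty]
    refine Finset.sum_eq_zero fun b hb => ?_
    rw [mem_filter] at hb
    obtain ⟨_, h1, h2⟩ := hb
    rw [Nat.cast_zero, zero_mul, add_zero] at h2
    exact absurd h2 (not_le.2 h1)
  | succ R ih =>
    rw [sum_range_succ, ← ih, Finset.sum_filter, Finset.sum_filter, Finset.sum_filter,
      ← Finset.sum_add_distrib]
    refine Finset.sum_congr rfl fun b _ => ?_
    have hR : 0 ≤ (R : ℝ) * h := by positivity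
    have e1 : a + ((R + 1 : ℕ) : ℝ) * h = a + R * h + h := by
      push_cast
      ring
    rw [e1]
    by_cases h1 : (b : ℝ) ≤ a + R * h
    · have h2 : ¬ (a + R * h < (b : ℝ) ∧ (b : ℝ) ≤ a + R * h + h) := fun h => by linarith [h.1]
      rw [if_neg h2, add_zero]
      by_cases h3 : a < (b : ℝ)
      · rw [if_pos ⟨h3, by linarith⟩, if_pos ⟨h3, h1⟩]
      · rw [if_neg fun h => h3 h.1, if_neg fun h => h3 h.1]
    · rw [if_neg (fun h : a < (b : ℝ) ∧ (b : ℝ) ≤ a + R * h => h1 h.2), zero_add]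
      rw [not_le] at h1
      by_cases h3 : (b : ℝ) ≤ a + R * h + h
      · rw [if_pos ⟨by linarith, h3⟩, if_pos ⟨h1, h3⟩]
      · rw [if_neg fun h => h3 h.2, if_neg fun h => h3 h.2]

private lemma CBL_card (M : ℕ) (u h : ℝ) (hu : 0 ≤ u) (hh : 0 ≤ h) (hM : u + h ≤ M) :
    h - 1 ≤ (#((Ioc (0 : ℕ) M).filter (fun b : ℕ => u < (b : ℝ) ∧ (b : ℝ) ≤ u + h)) : ℝ) ∧
      (#((Ioc (0 : ℕ) M).filter (fun b : ℕ => u < (b : ℝ) ∧ (b : ℝ) ≤ u + h)) : ℝ) ≤ h + 1 := by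
  have e1 : (Ioc (0 : ℕ) M).filter (fun b : ℕ => u < (b : ℝ) ∧ (b : ℝ) ≤ u + h) =
      Ioc ⌊u⌋₊ ⌊u + h⌋₊ := by
    ext b
    rw [mem_filter, mem_Ioc, mem_Ioc, Nat.floor_lt hu, Nat.le_floor_iff (by linarith)]
    constructor
    · rintro ⟨_, h1⟩
      exact h1
    · rintro ⟨h1, h2⟩
      refine ⟨⟨?_, ?_⟩, h1, h2⟩
      · have : (0 : ℝ) < b := by linarith
        exact_mod_cast this
      · have : (b : ℝ) ≤ M := by linarith
        exact_mod_cast this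
  rw [e1, Nat.card_Ioc]
  have h1 : ⌊u⌋₊ ≤ ⌊u + h⌋₊ := Nat.floor_mono (by linarith)
  rw [Nat.cast_sub h1]
  have h2 := Nat.floor_le hu
  have h3 := Nat.lt_floor_add_one u
  have h4 := Nat.floor_le (by linarith : 0 ≤ u + h)
  have h5 := Nat.lt_floor_add_one (u + h)
  constructor <;> linarith

/-- One interval. -/
private lemma CBL_one (S : Finset ℕ) (M : ℕ) (G : ℝ → ℝ) (κ u h η : ℝ) (hu : 0 ≤ u) (hh : 0 ≤ h)
    (hM : u + h ≤ M) (hκ : 0 ≤ κ) (hη : 0 ≤ η) (hG1 : G u ≤ 1) (hG0 : 0 ≤ G u)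
    (hGl : ∀ x, u < x → x ≤ u + h → |G x - G u| ≤ η)
    (hS : (#(S.filter (fun b : ℕ => u < (b : ℝ) ∧ (b : ℝ) ≤ u + h)) : ℝ) ≤ κ * h) :
    ∑ b ∈ S.filter (fun b : ℕ => u < (b : ℝ) ∧ (b : ℝ) ≤ u + h), G b ≤
      κ * (∑ b ∈ (Ioc (0 : ℕ) M).filter (fun b : ℕ => u < (b : ℝ) ∧ (b : ℝ) ≤ u + h), G b +
        1 + (2 * h + 1) * η) := by
  obtain ⟨c1, c2⟩ := CBL_card M u h hu hh hM
  have h1 : ∑ b ∈ S.filter (fun b : ℕ => u < (b : ℝ) ∧ (b : ℝ) ≤ u + h), G b ≤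
      (#(S.filter (fun b : ℕ => u < (b : ℝ) ∧ (b : ℝ) ≤ u + h)) : ℝ) * (G u + η) := by
    rw [← nsmul_eq_mul]
    refine Finset.sum_le_card_nsmul _ _ _ fun b hb => ?_
    rw [mem_filter] at hb
    have := (abs_le.1 (hGl b hb.2.1 hb.2.2)).2
    linarith
  have h2 : (#((Ioc (0 : ℕ) M).filter (fun b : ℕ => u < (b : ℝ) ∧ (b : ℝ) ≤ u + h)) : ℝ) *
      (G u - η) ≤ ∑ b ∈ (Ioc (0 : ℕ) M).filter (fun b : ℕ => u < (b : ℝ) ∧ (b : ℝ) ≤ u + h), G b := by
    rw [← nsmul_eq_mul]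
    refine Finset.card_nsmul_le_sum _ _ _ fun b hb => ?_
    rw [mem_filter] at hb
    have := (abs_le.1 (hGl b hb.2.1 hb.2.2)).1
    linarith
  have h3 : (#(S.filter (fun b : ℕ => u < (b : ℝ) ∧ (b : ℝ) ≤ u + h)) : ℝ) * (G u + η) ≤
      κ * h * (G u + η) := mul_le_mul_of_nonneg_right hS (by linarith)
  have h4 : h * (G u + η) ≤
      ∑ b ∈ (Ioc (0 : ℕ) M).filter (fun b : ℕ => u < (b : ℝ) ∧ (b : ℝ) ≤ u + h), G b +
        1 + (2 * h + 1) * η := by
    have h5 : (h - 1) * G u ≤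
        (#((Ioc (0 : ℕ) M).filter (fun b : ℕ => u < (b : ℝ) ∧ (b : ℝ) ≤ u + h)) : ℝ) * G u :=
      mul_le_mul_of_nonneg_right c1 hG0
    have h6 : (#((Ioc (0 : ℕ) M).filter (fun b : ℕ => u < (b : ℝ) ∧ (b : ℝ) ≤ u + h)) : ℝ) * η ≤
        (h + 1) * η := mul_le_mul_of_nonneg_right c2 hη
    nlinarith
  calc ∑ b ∈ S.filter (fun b : ℕ => u < (b : ℝ) ∧ (b : ℝ) ≤ u + h), G b
      ≤ κ * h * (G u + η) := h1.trans h3
    _ = κ * (h * (G u + η)) := by ring
    _ ≤ _ := mul_le_mul_of_nonneg_left h4 hκ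

private lemma CBL_sub (N : ℕ) (z y : ℝ) : BN N z y ⊆ Ioc (0 : ℕ) (64 * N ^ 3) := by
  classical
  intro b hb
  unfold BN at hb
  exact (Finset.mem_filter.1 hb).1

private lemma CBL_exp_big (n : ℕ) (C L : ℝ) (hC : 1 ≤ C) (hL : C * (n + 1).factorial ≤ L) :
    C * L ^ n ≤ Real.exp L := by
  have hf : (0 : ℝ) < (n + 1).factorial := by exact_mod_cast Nat.factorial_pos _
  have hL0 : 0 ≤ L := le_trans (by positivity) hL
  refine le_trans ?_ (Real.pow_div_factorial_le_exp L hL0 (n + 1))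
  rw [le_div_iff₀ hf, pow_succ]
  calc C * L ^ n * ((n + 1).factorial : ℝ) = L ^ n * (C * (n + 1).factorial) := by ring
    _ ≤ L ^ n * L := by gcongr

theorem CBL (cbp : CBP_stmt) (ccb : CCB_stmt) : CBL_stmt := by
  intro A B₂ hB₂
  obtain ⟨N₁, hN₁⟩ := cbp (2 * B₂ + A + 1)
  obtain ⟨Q, hQ⟩ : ∃ Q : ℝ, Q = 10 ^ 5 * ((2 * B₂ + A + 1 + 2 * B₂ + A + 1 + 1).factorial : ℝ) :=
    ⟨_, rfl⟩
  refine ⟨max N₁ ⌈Real.exp Q⌉₊, ?_⟩
  intro N hN z y hPZ c hc0 hc1
  have hNN₁ : N₁ ≤ N := (le_max_left _ _).trans hN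
  have hNexp : Real.exp Q ≤ N :=
    (Nat.le_ceil _).trans (by exact_mod_cast (le_max_right _ _).trans hN)
  have hNp : (0 : ℝ) < N := (Real.exp_pos _).trans_le hNexp
  have hN1 : 1 ≤ N := by exact_mod_cast hNp
  obtain ⟨L, hL⟩ : ∃ L, L = Real.log N := ⟨_, rfl⟩
  have hLQ : Q ≤ L := by
    rw [hL, Real.le_log_iff_exp_le hNp]
    exact hNexp
  have hfac : ∀ n : ℕ, n ≤ 2 * B₂ + A + 1 + 2 * B₂ + A + 1 + 1 →
      10 ^ 5 * (n.factorial : ℝ) ≤ L := by
    intro n hn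
    refine le_trans ?_ hLQ
    rw [hQ]
    have : n.factorial ≤ (2 * B₂ + A + 1 + 2 * B₂ + A + 1 + 1).factorial := Nat.factorial_le hn
    have h2 : (n.factorial : ℝ) ≤ ((2 * B₂ + A + 1 + 2 * B₂ + A + 1 + 1).factorial : ℝ) := by
      exact_mod_cast this
    linarith
  have hL5 : (10 : ℝ) ^ 5 ≤ L := by
    have := hfac 0 (by omega)
    simpa using this
  have hL1 : 1 ≤ L := le_trans (by norm_num) hL5
  have hLp : 0 < L := by linarith
  have hNL : (N : ℝ) = Real.exp L := by rw [hL, Real.exp_log hNp]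
  have hdB : dB B₂ N = 1 / L ^ B₂ := by rw [dB, hL]
  have hdBp : 0 < dB B₂ N := by
    rw [hdB]
    positivity
  rw [← hL]
  -- the function
  obtain ⟨G, hG⟩ : ∃ G : ℝ → ℝ, G = fun x => Ph N c (dB B₂ N) (Real.log x) := ⟨_, rfl⟩
  have hG0 : ∀ x, 0 ≤ G x := fun x => by
    rw [hG]
    exact ccb.2.2.2.2.2 N c (dB B₂ N) _ hdBp hc0 hc1
  have hG1 : ∀ x, G x ≤ 1 := fun x => by
    rw [hG]
    exact (abs_le.1 (ccb.2.2.1 N c (dB B₂ N) (Real.log x) hdBp hc1)).2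
  have hGout : ∀ x : ℝ, 0 < x → (x ≤ (N : ℝ) ^ 3 / 2 ∨ 16 * (N : ℝ) ^ 3 ≤ x) →
      G x ≤ 2 * Real.exp (-L) := by
    intro x hx hx2
    have h1 := ccb.2.2.2.1 N c (dB B₂ N) (Real.log x) hN1 hdBp hc1 (by
      rcases hx2 with h | h
      · left
        have h2 := Real.log_le_log hx h
        rw [Real.log_div (by positivity) (by norm_num), Real.log_pow] at h2
        push_cast at h2
        exact h2
      · right
        have h2 := Real.log_le_log (by positivity) h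
        rw [Real.log_mul (by norm_num) (by positivity), Real.log_pow] at h2
        rw [Real.log_mul (by norm_num) hNp.ne']
        have h3 : Real.log 16 = 4 * Real.log 2 := by
          rw [show (16 : ℝ) = 2 ^ 4 by norm_num, Real.log_pow]
          norm_num
        rw [h3] at h2
        push_cast at h2
        linarith)
    have h4 : G x ≤ 2 * Real.exp (-(1 / (9 * dB B₂ N ^ 2))) := by
      rw [hG]
      exact (le_abs_self _).trans h1
    refine h4.trans ?_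
    have h5 : L ≤ 1 / (9 * dB B₂ N ^ 2) := by
      rw [hdB]
      have h6 : 1 / (9 * (1 / L ^ B₂) ^ 2) = (L ^ B₂) ^ 2 / 9 := by
        field_simp
      rw [h6]
      have h7 : L ≤ L ^ B₂ := by
        calc L = L ^ 1 := (pow_one L).symm
          _ ≤ L ^ B₂ := pow_le_pow_right₀ hL1 hB₂
      have h8 : (9 : ℝ) ≤ L := le_trans (by norm_num) hL5
      rw [le_div_iff₀ (by norm_num)]
      nlinarith
    gcongr
  have hGlip : ∀ x x' : ℝ, |G x - G x'| ≤ 3 * |Real.log x - Real.log x'| * L ^ (2 * B₂) := by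
    intro x x'
    rw [hG]
    have h1 := CBL_Ph_lip ccb N hN1 c hc1 (dB B₂ N) hdBp (Real.log x) (Real.log x')
    have h2 : 3 * |Real.log x - Real.log x'| / dB B₂ N ^ 2 =
        3 * |Real.log x - Real.log x'| * L ^ (2 * B₂) := by
      rw [hdB, mul_comm 2 B₂, pow_mul]
      field_simp
    rw [h2] at h1
    exact h1
  -- parameters
  obtain ⟨R, hR⟩ : ∃ R : ℕ, R = ⌊L ^ (2 * B₂ + A + 1) / 2⌋₊ := ⟨_, rfl⟩
  have hLB : L ≤ L ^ (2 * B₂ + A + 1) := by
    calc L = L ^ 1 := (pow_one L).symm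
      _ ≤ L ^ (2 * B₂ + A + 1) := pow_le_pow_right₀ hL1 (by omega)
  have hLBp : 0 < L ^ (2 * B₂ + A + 1) := by positivity
  have hR1 : (R : ℝ) ≤ L ^ (2 * B₂ + A + 1) / 2 := by
    rw [hR]
    exact Nat.floor_le (by positivity)
  have hR2 : L ^ (2 * B₂ + A + 1) / 4 ≤ R := by
    have h1 := Nat.lt_floor_add_one (L ^ (2 * B₂ + A + 1) / 2)
    rw [← hR] at h1
    have h2 : (4 : ℝ) ≤ L := le_trans (by norm_num) hL5
    linarith
  have hR3 : (31 : ℝ) ≤ R := by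
    have h2 : (124 : ℝ) ≤ L := le_trans (by norm_num) hL5
    linarith
  have hRp : (0 : ℝ) < R := by linarith
  have hN3 : (0 : ℝ) < (N : ℝ) ^ 3 := by positivity
  obtain ⟨h, hh⟩ : ∃ h : ℝ, h = 31 * (N : ℝ) ^ 3 / (2 * R) := ⟨_, rfl⟩
  have hhp : 0 < h := by
    rw [hh]
    positivity
  have hRh : R * h = 31 * (N : ℝ) ^ 3 / 2 := by
    rw [hh]
    field_simp
  obtain ⟨η, hη⟩ : ∃ η : ℝ, η = 93 * L ^ (2 * B₂) / R := ⟨_, rfl⟩
  have hηp : 0 < η := by
    rw [hη]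
    positivity
  have hRη : R * η = 93 * L ^ (2 * B₂) := by
    rw [hη]
    field_simp
  have hhle : h ≤ (N : ℝ) ^ 3 / 2 := by
    rw [hh, div_le_div_iff₀ (by positivity) (by norm_num)]
    nlinarith
  -- each interval
  have hone : ∀ i ∈ range R, ∑ b ∈ (BN N z y).filter (fun b : ℕ => (N : ℝ) ^ 3 / 2 + i * h < (b : ℝ) ∧
      (b : ℝ) ≤ (N : ℝ) ^ 3 / 2 + i * h + h), G b ≤ 1 / 20 / L *
      (∑ b ∈ (Ioc (0 : ℕ) (64 * N ^ 3)).filter (fun b : ℕ => (N : ℝ) ^ 3 / 2 + i * h < (b : ℝ) ∧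
      (b : ℝ) ≤ (N : ℝ) ^ 3 / 2 + i * h + h), G b + 1 + (2 * h + 1) * η) := by
    intro i hi
    have hi' : (i : ℝ) + 1 ≤ R := by
      have := mem_range.1 hi
      exact_mod_cast this
    have hih : (N : ℝ) ^ 3 / 2 + i * h + h ≤ 16 * (N : ℝ) ^ 3 := by
      have : ((i : ℝ) + 1) * h ≤ R * h := mul_le_mul_of_nonneg_right hi' hhp.le
      rw [hRh] at this
      linarith
    have hih0 : 0 ≤ (i : ℝ) * h := by positivity
    refine CBL_one (BN N z y) (64 * N ^ 3) G (1 / 20 / L) ((N : ℝ) ^ 3 / 2 + i * h) h η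
      (by positivity) hhp.le ?_ (by positivity) hηp.le (hG1 _) (hG0 _) ?_ ?_
    · push_cast
      linarith
    · intro x hx1 hx2
      refine (hGlip x _).trans ?_
      have hu0 : 0 < (N : ℝ) ^ 3 / 2 + i * h := by positivity
      have hx0 : 0 < x := hu0.trans hx1
      have h1 : |Real.log x - Real.log ((N : ℝ) ^ 3 / 2 + i * h)| ≤ 31 / R := by
        rw [abs_of_nonneg (sub_nonneg.2 (Real.log_le_log hu0 hx1.le)), ← Real.log_div hx0.ne' hu0.ne']
        refine (Real.log_le_sub_one_of_pos (by positivity)).trans ?_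
        rw [div_sub_one hu0.ne', div_le_div_iff₀ hu0 hRp]
        have h2 : (x - ((N : ℝ) ^ 3 / 2 + i * h)) * R ≤ h * R := by
          refine mul_le_mul_of_nonneg_right ?_ hRp.le
          linarith
        rw [mul_comm h, hRh] at h2
        nlinarith
      calc 3 * |Real.log x - Real.log ((N : ℝ) ^ 3 / 2 + i * h)| * L ^ (2 * B₂)
          ≤ 3 * (31 / R) * L ^ (2 * B₂) := by gcongr
        _ = η := by
          rw [hη]
          ring
    · have h1 := hN₁ N hNN₁ z y ((N : ℝ) ^ 3 / 2 + i * h) h hPZ (by linarith) (by linarith) (by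
        rw [← hL]
        have h2 : (N : ℝ) ^ 3 / 2 + i * h ≤ 16 * (N : ℝ) ^ 3 - h := by linarith
        rw [div_le_iff₀ hLBp]
        have h3 : h * (2 * R) ≤ h * L ^ (2 * B₂ + A + 1) := by
          refine mul_le_mul_of_nonneg_left ?_ hhp.le
          linarith
        have h4 : h * (2 * R) = 31 * (N : ℝ) ^ 3 := by
          have := hRh
          linarith
        linarith) (by linarith)
      rw [← hL] at h1
      refine h1.trans_eq ?_
      ring
  have hsplit : ∀ S : Finset ℕ, ∑ b ∈ S.filter (fun b : ℕ => (N : ℝ) ^ 3 / 2 < (b : ℝ) ∧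
      (b : ℝ) ≤ 16 * (N : ℝ) ^ 3), G b = ∑ i ∈ range R, ∑ b ∈ S.filter (fun b : ℕ =>
        (N : ℝ) ^ 3 / 2 + i * h < (b : ℝ) ∧ (b : ℝ) ≤ (N : ℝ) ^ 3 / 2 + i * h + h), G b := by
    intro S
    rw [← CBL_split S (fun b => G b) ((N : ℝ) ^ 3 / 2) h hhp.le R, hRh]
    have e1 : (N : ℝ) ^ 3 / 2 + 31 * (N : ℝ) ^ 3 / 2 = 16 * (N : ℝ) ^ 3 := by ring
    rw [e1]
  have hin : ∑ b ∈ (BN N z y).filter (fun b : ℕ => (N : ℝ) ^ 3 / 2 < (b : ℝ) ∧
      (b : ℝ) ≤ 16 * (N : ℝ) ^ 3), G b ≤ 1 / 20 / L * ∑ b ∈ (Ioc (0 : ℕ) (64 * N ^ 3)).filter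
      (fun b : ℕ => (N : ℝ) ^ 3 / 2 < (b : ℝ) ∧ (b : ℝ) ≤ 16 * (N : ℝ) ^ 3), G b +
      1 / 20 / L * (R + (2 * (R * h) + R) * η) := by
    rw [hsplit, hsplit]
    refine (Finset.sum_le_sum hone).trans_eq ?_
    rw [← Finset.mul_sum, Finset.sum_add_distrib, Finset.sum_add_distrib, Finset.sum_const,
      Finset.sum_const, card_range, nsmul_eq_mul, nsmul_eq_mul]
    ring
  -- the outside
  have hout : ∑ b ∈ (BN N z y).filter (fun b : ℕ => ¬ ((N : ℝ) ^ 3 / 2 < (b : ℝ) ∧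
      (b : ℝ) ≤ 16 * (N : ℝ) ^ 3)), G b ≤ 64 * (N : ℝ) ^ 3 * (2 * Real.exp (-L)) := by
    have h1 : ∀ b ∈ (BN N z y).filter (fun b : ℕ => ¬ ((N : ℝ) ^ 3 / 2 < (b : ℝ) ∧
      (b : ℝ) ≤ 16 * (N : ℝ) ^ 3)), G b ≤ 2 * Real.exp (-L) := by
      intro b hb
      rw [mem_filter] at hb
      obtain ⟨hb00, hb1⟩ := hb
      obtain ⟨hb0, _⟩ := mem_Ioc.1 (CBL_sub N z y hb00)
      refine hGout b (by exact_mod_cast hb0) ?_
      by_cases h2 : (b : ℝ) ≤ (N : ℝ) ^ 3 / 2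
      · exact Or.inl h2
      · right
        rw [not_le] at h2
        by_contra h3
        exact hb1 ⟨h2, by linarith⟩
    refine (Finset.sum_le_card_nsmul _ _ _ h1).trans ?_
    rw [nsmul_eq_mul]
    refine mul_le_mul_of_nonneg_right ?_ (by positivity)
    have h2 : #((BN N z y).filter (fun b : ℕ => ¬ ((N : ℝ) ^ 3 / 2 < (b : ℝ) ∧
      (b : ℝ) ≤ 16 * (N : ℝ) ^ 3))) ≤ #(Ioc (0 : ℕ) (64 * N ^ 3)) := by
      exact Finset.card_le_card ((Finset.filter_subset _ _).trans (CBL_sub N z y))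
    rw [Nat.card_Ioc, Nat.sub_zero] at h2
    exact_mod_cast h2
  -- put together
  have hmono : ∑ b ∈ (Ioc (0 : ℕ) (64 * N ^ 3)).filter
      (fun b : ℕ => (N : ℝ) ^ 3 / 2 < (b : ℝ) ∧ (b : ℝ) ≤ 16 * (N : ℝ) ^ 3), G b ≤
      ∑ b ∈ Ioc (0 : ℕ) (64 * N ^ 3), G b :=
    Finset.sum_le_sum_of_subset_of_nonneg (Finset.filter_subset _ _) fun b _ _ => hG0 b
  have hgoal : ∑ b ∈ BN N z y, G b ≤ 1 / 20 / L * ∑ j ∈ Ioc (0 : ℕ) (64 * N ^ 3), G j +
      (N : ℝ) ^ 3 / L ^ A := by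
    rw [← Finset.sum_filter_add_sum_filter_not (BN N z y) (fun b : ℕ => (N : ℝ) ^ 3 / 2 < (b : ℝ) ∧
      (b : ℝ) ≤ 16 * (N : ℝ) ^ 3)]
    have h1 := mul_le_mul_of_nonneg_left hmono (by positivity : 0 ≤ 1 / 20 / L)
    -- error terms
    have hLA : 0 < L ^ A := by positivity
    have e1 : 64 * (N : ℝ) ^ 3 * (2 * Real.exp (-L)) ≤ (N : ℝ) ^ 3 / L ^ A / 4 := by
      have h2 := CBL_exp_big A (10 ^ 5) L (by norm_num) (hfac (A + 1) (by omega))
      rw [Real.exp_neg]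
      have hE := Real.exp_pos L
      rw [div_div, le_div_iff₀ (by positivity)]
      have h3 : 512 * L ^ A ≤ Real.exp L := by
        refine le_trans ?_ h2
        gcongr
        norm_num
      have h4 : 64 * (N : ℝ) ^ 3 * (2 * (Real.exp L)⁻¹) * (L ^ A * 4) =
          (N : ℝ) ^ 3 * ((512 * L ^ A) * (Real.exp L)⁻¹) := by ring
      rw [h4]
      have h5 : (512 * L ^ A) * (Real.exp L)⁻¹ ≤ 1 := by
        rw [← div_eq_mul_inv, div_le_one hE]
        exact h3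
      nlinarith
    have hκ1 : 1 / 20 / L ≤ 1 := by
      rw [div_le_one hLp]
      linarith
    have e2 : 1 / 20 / L * (R + (2 * (R * h) + R) * η) ≤ (N : ℝ) ^ 3 / L ^ A / 2 := by
      have hpos : 0 ≤ (R : ℝ) + (2 * (R * h) + R) * η := by positivity
      have h2 : 1 / 20 / L * (R + (2 * (R * h) + R) * η) ≤ R + (2 * (R * h) + R) * η := by
        nlinarith
      refine h2.trans ?_
      have h3 : (R : ℝ) + (2 * (R * h) + R) * η = R + R * η + 31 * (N : ℝ) ^ 3 * η := by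
        rw [hRh]
        ring
      rw [h3, hRη]
      -- 31 N^3 η
      have h4 : 31 * (N : ℝ) ^ 3 * η ≤ (N : ℝ) ^ 3 / L ^ A / 4 := by
        have h5 : η ≤ 372 / L ^ (A + 1) := by
          rw [hη, div_le_div_iff₀ hRp (by positivity)]
          have h6 : 372 * (L ^ (2 * B₂ + A + 1) / 4) ≤ 372 * (R : ℝ) := by linarith
          have h7 : 93 * L ^ (2 * B₂) * L ^ (A + 1) = 372 * (L ^ (2 * B₂ + A + 1) / 4) := by
            rw [show 2 * B₂ + A + 1 = 2 * B₂ + (A + 1) by ring, pow_add]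
            ring
          rw [h7]
          exact h6
        have h8 : 31 * (N : ℝ) ^ 3 * η ≤ 31 * (N : ℝ) ^ 3 * (372 / L ^ (A + 1)) := by gcongr
        refine h8.trans ?_
        rw [div_div, mul_div_assoc', div_le_div_iff₀ (by positivity) (by positivity), pow_succ L A]
        have h9 : (46128 : ℝ) ≤ L := le_trans (by norm_num) hL5
        have h10 : 31 * (N : ℝ) ^ 3 * 372 * (L ^ A * 4) = (N : ℝ) ^ 3 * L ^ A * 46128 := by ring
        rw [h10]
        calc (N : ℝ) ^ 3 * L ^ A * 46128 ≤ (N : ℝ) ^ 3 * L ^ A * L := by gcongr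
          _ = _ := by ring
      have h11 : (R : ℝ) + 93 * L ^ (2 * B₂) ≤ (N : ℝ) ^ 3 / L ^ A / 4 := by
        have h12 : L ^ (2 * B₂) ≤ L ^ (2 * B₂ + A + 1) := pow_le_pow_right₀ hL1 (by omega)
        have h13 : (R : ℝ) + 93 * L ^ (2 * B₂) ≤ 94 * L ^ (2 * B₂ + A + 1) := by linarith
        refine h13.trans ?_
        rw [div_div, le_div_iff₀ (by positivity)]
        have h14 : 94 * L ^ (2 * B₂ + A + 1) * (L ^ A * 4) = 376 * L ^ (2 * B₂ + A + 1 + A) := by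
          rw [pow_add L (2 * B₂ + A + 1) A]
          ring
        rw [h14]
        have h15 := CBL_exp_big (2 * B₂ + A + 1 + A) (10 ^ 5) L (by norm_num)
          (hfac _ (by omega))
        have h16 : Real.exp L ≤ (N : ℝ) ^ 3 := by
          rw [← hNL]
          have : (1 : ℝ) ≤ N := by exact_mod_cast hN1
          calc (N : ℝ) = (N : ℝ) ^ 1 := (pow_one _).symm
            _ ≤ (N : ℝ) ^ 3 := pow_le_pow_right₀ this (by norm_num)
        refine le_trans ?_ (h15.trans h16)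
        gcongr
        norm_num
      linarith
    have hfin : (N : ℝ) ^ 3 / L ^ A / 2 + (N : ℝ) ^ 3 / L ^ A / 4 ≤ (N : ℝ) ^ 3 / L ^ A := by
      have : 0 < (N : ℝ) ^ 3 / L ^ A := by positivity
      linarith
    linarith
  rw [hG] at hgoal
  exact hgoal

end Pool.Agent.CH
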