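import Pool.Agent.helper17.CH.SpecW

set_option autoImplicit false

namespace Pool.Agent.CH

open Finset ArithmeticFunction MeasureTheory

private lemma TI_nit_norm (t x : ℝ) : ‖nit t x‖ = 1 := by
  unfold nit
  exact Complex.norm_exp_ofReal_mul_I _

private lemma TI_nit_mul (t : ℝ) {x y : ℝ} (hx : 0 < x) (hy : 0 < y) :
    nit t (x * y) = nit t x * nit t y := by
  unfold nit
  rw [Real.log_mul hx.ne' hy.ne', ← Complex.exp_add]
  congr 1
  push_cast
  ring

private lemma TI_fib (em : EM_stmt) (q : ℕ) (hq : 1 ≤ q) (χ : DirichletCharacter ℂ q) (t : ℝ)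
    (ht : t ≠ 0) (X r : ℕ) (hr : r < q) :
    ‖∑ k ∈ ((Ioc 0 X).filter (fun k => q ≤ k)).filter (fun k => k % q = r),
      χ (k : ZMod q) * nit t k‖ ≤ 4 * X / |t| + 1 + |t| * Real.log X := by
  have hq0 : (0 : ℝ) < q := by exact_mod_cast hq
  have htp : 0 < |t| := abs_pos.2 ht
  have h1 : ∑ k ∈ ((Ioc 0 X).filter (fun k => q ≤ k)).filter (fun k => k % q = r),
      χ (k : ZMod q) * nit t k =
      ∑ m ∈ Ioc 0 ((X - r) / q), χ (r : ZMod q) * nit t q * nit t ((m : ℝ) + (r : ℝ) / q) := by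
    refine Finset.sum_nbij' (fun k => k / q) (fun m => q * m + r) ?_ ?_ ?_ ?_ ?_
    · intro k hk
      simp only [mem_filter, mem_Ioc] at hk ⊢
      obtain ⟨⟨⟨_, hkX⟩, hqk⟩, hkr⟩ := hk
      refine ⟨Nat.div_pos hqk hq, ?_⟩
      rw [Nat.le_div_iff_mul_le hq]
      have := Nat.div_add_mod k q
      rw [mul_comm]
      omega
    · intro m hm
      simp only [mem_filter, mem_Ioc] at hm ⊢
      obtain ⟨hm0, hmX⟩ := hm
      rw [Nat.le_div_iff_mul_le hq, mul_comm] at hmX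
      have h2 : q ≤ q * m := Nat.le_mul_of_pos_right q hm0
      refine ⟨⟨⟨by omega, by omega⟩, by omega⟩, ?_⟩
      rw [Nat.mul_add_mod, Nat.mod_eq_of_lt hr]
    · intro k hk
      simp only [mem_filter, mem_Ioc] at hk
      obtain ⟨_, hkr⟩ := hk
      show q * (k / q) + r = k
      rw [← hkr]
      exact Nat.div_add_mod k q
    · intro m _
      show (q * m + r) / q = m
      rw [Nat.mul_add_div hq, Nat.div_eq_of_lt hr, add_zero]
    · intro k hk
      simp only [mem_filter, mem_Ioc] at hk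
      obtain ⟨⟨_, hqk⟩, hkr⟩ := hk
      have hk2 := Nat.div_add_mod k q
      rw [hkr] at hk2
      have h3 : (k : ZMod q) = (r : ZMod q) := by
        rw [← hk2]
        push_cast
        rw [CharP.cast_eq_zero, zero_mul, zero_add]
      have h4 : (k : ℝ) = q * (((k / q : ℕ) : ℝ) + (r : ℝ) / q) := by
        rw [mul_add, mul_div_cancel₀ _ hq0.ne']
        exact_mod_cast hk2.symm
      have h5 : (0 : ℝ) < ((k / q : ℕ) : ℝ) + (r : ℝ) / q := by
        have : 0 < k / q := Nat.div_pos hqk hq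
        have h6 : (0 : ℝ) < ((k / q : ℕ) : ℝ) := by exact_mod_cast this
        positivity
      rw [h3, mul_assoc, ← TI_nit_mul t hq0 h5, ← h4]
  rw [h1, ← Finset.mul_sum, norm_mul, norm_mul, TI_nit_norm, mul_one]
  have hχ : ‖χ (r : ZMod q)‖ ≤ 1 := χ.norm_le_one _
  have hXr : 0 ≤ |t| * Real.log X := by
    rcases Nat.eq_zero_or_pos X with h | h
    · rw [h]
      simp
    · exact mul_nonneg htp.le (Real.log_nonneg (by exact_mod_cast h))
  have h7 : ‖∑ m ∈ Ioc 0 ((X - r) / q), nit t ((m : ℝ) + (r : ℝ) / q)‖ ≤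
      4 * X / |t| + 1 + |t| * Real.log X := by
    rcases Nat.eq_zero_or_pos ((X - r) / q) with h | h
    · rw [h]
      simp only [Ioc_self, sum_empty, norm_zero]
      positivity
    · have hMX : (X - r) / q ≤ X := (Nat.div_le_self _ _).trans (Nat.sub_le _ _)
      have h8 := em t (((X - r) / q : ℕ) : ℝ) ((r : ℝ) / q) ht (by exact_mod_cast h)
        (by positivity) (by
          rw [div_le_one hq0]
          exact_mod_cast hr.le)
      rw [Nat.floor_natCast] at h8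
      refine h8.trans ?_
      have hMX' : (((X - r) / q : ℕ) : ℝ) ≤ X := by exact_mod_cast hMX
      have h9 : Real.log (((X - r) / q : ℕ) : ℝ) ≤ Real.log X :=
        Real.log_le_log (by exact_mod_cast h) hMX'
      gcongr
  calc ‖χ (r : ZMod q)‖ * ‖∑ m ∈ Ioc 0 ((X - r) / q), nit t ((m : ℝ) + (r : ℝ) / q)‖
      ≤ 1 * ‖∑ m ∈ Ioc 0 ((X - r) / q), nit t ((m : ℝ) + (r : ℝ) / q)‖ := by gcongr
    _ ≤ _ := by rw [one_mul]; exact h7

private lemma TI_char (em : EM_stmt) (q : ℕ) (hq : 1 ≤ q) (χ : DirichletCharacter ℂ q) (t : ℝ)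
    (ht : t ≠ 0) (X : ℕ) :
    ‖∑ k ∈ Ioc 0 X, χ (k : ZMod q) * nit t k‖ ≤ q * (4 * X / |t| + 2 + |t| * Real.log X) := by
  rw [← Finset.sum_filter_add_sum_filter_not (Ioc 0 X) (fun k => q ≤ k)]
  have h1 : ‖∑ k ∈ (Ioc 0 X).filter (fun k => q ≤ k), χ (k : ZMod q) * nit t k‖ ≤
      q * (4 * X / |t| + 1 + |t| * Real.log X) := by
    rw [← Finset.sum_fiberwise_of_maps_to (g := fun k => k % q) (t := range q)
      (fun k _ => mem_range.2 (Nat.mod_lt _ hq))]
    refine (norm_sum_le _ _).trans ?_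
    refine (Finset.sum_le_sum fun r hr => TI_fib em q hq χ t ht X r (mem_range.1 hr)).trans ?_
    rw [Finset.sum_const, card_range, nsmul_eq_mul]
  have h2 : ‖∑ k ∈ (Ioc 0 X).filter (fun k => ¬ q ≤ k), χ (k : ZMod q) * nit t k‖ ≤ q := by
    refine (norm_sum_le _ _).trans ?_
    have h3 : ∀ k ∈ (Ioc 0 X).filter (fun k => ¬ q ≤ k), ‖χ (k : ZMod q) * nit t k‖ ≤ 1 := by
      intro k _
      rw [norm_mul, TI_nit_norm, mul_one]
      exact χ.norm_le_one _
    refine (Finset.sum_le_sum h3).trans ?_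
    rw [Finset.sum_const, nsmul_eq_mul, mul_one]
    have h4 : ((Ioc 0 X).filter (fun k => ¬ q ≤ k)) ⊆ range q := by
      intro k hk
      rw [mem_filter, not_le] at hk
      exact mem_range.2 hk.2
    have := Finset.card_le_card h4
    rw [card_range] at this
    exact_mod_cast this
  refine (norm_add_le _ _).trans ?_
  linarith

private lemma TI_abel (c : ℕ → ℂ) (K : ℕ) (hK : 1 ≤ K) (E : ℝ)
    (hE : ∀ n, K ≤ n → n ≤ 2 * K → ‖∑ k ∈ Ico K n, c k‖ ≤ E) :
    ‖∑ k ∈ Ico K (2 * K), c k * (Real.log k : ℂ)‖ ≤ 2 * E * Real.log ((2 * K : ℕ) : ℝ) := by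
  have key : ∀ n, K ≤ n → n ≤ 2 * K →
      ‖∑ k ∈ Ico K n, c k * (Real.log k : ℂ) - (∑ k ∈ Ico K n, c k) * (Real.log n : ℂ)‖ ≤
        E * (Real.log n - Real.log K) := by
    intro n hn
    induction n, hn using Nat.le_induction with
    | base =>
      intro _
      simp
    | succ n hn ih =>
      intro hn2
      have h1 := ih (by omega)
      rw [Finset.sum_Ico_succ_top hn]
      have h2 : ∑ k ∈ Ico K n, c k * (Real.log k : ℂ) + c n * (Real.log n : ℂ) -
          (∑ k ∈ Ico K (n + 1), c k) * (Real.log ((n + 1 : ℕ) : ℝ) : ℂ) =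
          (∑ k ∈ Ico K n, c k * (Real.log k : ℂ) - (∑ k ∈ Ico K n, c k) * (Real.log n : ℂ)) -
          (∑ k ∈ Ico K (n + 1), c k) * ((Real.log ((n + 1 : ℕ) : ℝ) - Real.log n : ℝ) : ℂ) := by
        rw [Finset.sum_Ico_succ_top hn]
        push_cast
        ring
      rw [h2]
      refine (norm_sub_le _ _).trans ?_
      have hnp : (0 : ℝ) < n := by
        have : 0 < n := by omega
        exact_mod_cast this
      have h3 : 0 ≤ Real.log ((n + 1 : ℕ) : ℝ) - Real.log n := by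
        rw [sub_nonneg]
        exact Real.log_le_log hnp (by push_cast; linarith)
      rw [norm_mul, Complex.norm_real, Real.norm_of_nonneg h3]
      have h4 := mul_le_mul_of_nonneg_right (hE (n + 1) (by omega) hn2) h3
      linarith
  have h1 := key (2 * K) (by omega) le_rfl
  have h2 := hE (2 * K) (by omega) le_rfl
  have hE0 : 0 ≤ E := (norm_nonneg _).trans h2
  have hlK : 0 ≤ Real.log K := Real.log_nonneg (by exact_mod_cast hK)
  have hl2 : 0 ≤ Real.log ((2 * K : ℕ) : ℝ) := Real.log_nonneg (by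
    have : 1 ≤ 2 * K := by omega
    exact_mod_cast this)
  have h3 : ‖(∑ k ∈ Ico K (2 * K), c k) * (Real.log ((2 * K : ℕ) : ℝ) : ℂ)‖ ≤
      E * Real.log ((2 * K : ℕ) : ℝ) := by
    rw [norm_mul, Complex.norm_real, Real.norm_of_nonneg hl2]
    gcongr
  have h4 : ∑ k ∈ Ico K (2 * K), c k * (Real.log k : ℂ) =
      (∑ k ∈ Ico K (2 * K), c k * (Real.log k : ℂ) -
        (∑ k ∈ Ico K (2 * K), c k) * (Real.log ((2 * K : ℕ) : ℝ) : ℂ)) +
      (∑ k ∈ Ico K (2 * K), c k) * (Real.log ((2 * K : ℕ) : ℝ) : ℂ) := by ring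
  rw [h4]
  refine (norm_add_le _ _).trans ?_
  have h5 : E * (Real.log ((2 * K : ℕ) : ℝ) - Real.log K) ≤ E * Real.log ((2 * K : ℕ) : ℝ) :=
    mul_le_mul_of_nonneg_left (by linarith) hE0
  linarith

/-- The sum over a block. -/
private lemma TI_block (em : EM_stmt) (q : ℕ) (hq : 1 ≤ q) (χ : DirichletCharacter ℂ q) (t : ℝ)
    (ht : t ≠ 0) (K : ℕ) (hK : 1 ≤ K) (n : ℕ) (hKn : K ≤ n) (hn : n ≤ 2 * K) :
    ‖∑ k ∈ Ico K n, χ (k : ZMod q) * nit t k‖ ≤
      2 * (q * (4 * ((2 * K : ℕ) : ℝ) / |t| + 2 + |t| * Real.log ((2 * K : ℕ) : ℝ))) := by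
  have htp : 0 < |t| := abs_pos.2 ht
  have hq0 : (0 : ℝ) < q := by exact_mod_cast hq
  have mono : ∀ X : ℕ, X ≤ 2 * K → q * (4 * (X : ℝ) / |t| + 2 + |t| * Real.log X) ≤
      q * (4 * ((2 * K : ℕ) : ℝ) / |t| + 2 + |t| * Real.log ((2 * K : ℕ) : ℝ)) := by
    intro X hX
    have hX' : (X : ℝ) ≤ ((2 * K : ℕ) : ℝ) := by exact_mod_cast hX
    have hl : Real.log X ≤ Real.log ((2 * K : ℕ) : ℝ) := by
      rcases Nat.eq_zero_or_pos X with h | h
      · rw [h]
        simp only [Nat.cast_zero, Real.log_zero]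
        refine Real.log_nonneg ?_
        have : 1 ≤ 2 * K := by omega
        exact_mod_cast this
      · exact Real.log_le_log (by exact_mod_cast h) hX'
    gcongr
  have h1 : ∑ k ∈ Ico K n, χ (k : ZMod q) * nit t k =
      ∑ k ∈ Ioc 0 (n - 1), χ (k : ZMod q) * nit t k -
        ∑ k ∈ Ioc 0 (K - 1), χ (k : ZMod q) * nit t k := by
    rw [eq_sub_iff_add_eq, add_comm]
    rcases Nat.eq_or_lt_of_le hKn with h | h
    · rw [h]
      simp
    · have e1 : Ico K n = Ioc (K - 1) (n - 1) := by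
        ext k
        simp only [mem_Ico, mem_Ioc]
        omega
      rw [e1, Finset.sum_Ioc_consecutive _ (Nat.zero_le _) (by omega)]
  rw [h1]
  refine (norm_sub_le _ _).trans ?_
  have h2 := (TI_char em q hq χ t ht (n - 1)).trans (mono (n - 1) (by omega))
  have h3 := (TI_char em q hq χ t ht (K - 1)).trans (mono (K - 1) (by omega))
  linarith

private lemma TI_int (T₀ C : ℝ) (hT : 0 < T₀) (hC : 0 ≤ C) (S : Set ℝ) (hS : MeasurableSet S)
    (hST : ∀ t ∈ S, T₀ ≤ |t|) (F : ℝ → ℝ) (hF0 : ∀ t, 0 ≤ F t)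
    (hF : ∀ t ∈ S, F t ≤ C / t ^ 2) : ∫ t in S, F t ≤ 2 * Real.pi * C / T₀ := by
  have hg : Integrable (fun t : ℝ => 2 * C / T₀ ^ 2 * (1 + (t / T₀) ^ 2)⁻¹) :=
    (integrable_inv_one_add_sq.comp_div hT.ne').const_mul _
  have hg0 : ∀ t : ℝ, 0 ≤ 2 * C / T₀ ^ 2 * (1 + (t / T₀) ^ 2)⁻¹ := fun t => by positivity
  have h1 : ∫ t in S, F t ≤ ∫ t in S, 2 * C / T₀ ^ 2 * (1 + (t / T₀) ^ 2)⁻¹ := by
    refine integral_mono_of_nonneg (Filter.Eventually.of_forall hF0) hg.integrableOn ?_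
    refine (ae_restrict_iff' hS).2 (Filter.Eventually.of_forall fun t ht => ?_)
    refine (hF t ht).trans ?_
    have h2 := hST t ht
    have h3 : T₀ ^ 2 ≤ t ^ 2 := by
      rw [← sq_abs t]
      exact pow_le_pow_left₀ hT.le h2 2
    have ht2 : 0 < t ^ 2 := lt_of_lt_of_le (by positivity) h3
    have h4 : 2 * C / T₀ ^ 2 * (1 + (t / T₀) ^ 2)⁻¹ = 2 * C / (T₀ ^ 2 + t ^ 2) := by
      field_simp
    show C / t ^ 2 ≤ 2 * C / T₀ ^ 2 * (1 + (t / T₀) ^ 2)⁻¹
    rw [h4, div_le_div_iff₀ ht2 (by positivity)]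
    nlinarith [mul_le_mul_of_nonneg_left h3 hC]
  have h5 : ∫ t in S, 2 * C / T₀ ^ 2 * (1 + (t / T₀) ^ 2)⁻¹ ≤
      ∫ t : ℝ, 2 * C / T₀ ^ 2 * (1 + (t / T₀) ^ 2)⁻¹ :=
    setIntegral_le_integral hg (Filter.Eventually.of_forall hg0)
  have h6 : ∫ t : ℝ, 2 * C / T₀ ^ 2 * (1 + (t / T₀) ^ 2)⁻¹ = 2 * Real.pi * C / T₀ := by
    rw [integral_const_mul, Measure.integral_comp_div (fun t : ℝ => (1 + t ^ 2)⁻¹) T₀,
      integral_univ_inv_one_add_sq, abs_of_pos hT, smul_eq_mul]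
    field_simp
  exact (h1.trans h5).trans h6.le

private lemma TI_meas (ε : ℝ) (B₁ N : ℕ) : MeasurableSet (Tset ε B₁ N) := by
  unfold Tset
  exact (measurableSet_le measurable_const continuous_abs.measurable).inter
    (measurableSet_le continuous_abs.measurable measurable_const)

theorem TI (em : EM_stmt) : TI_stmt := by
  intro ε A B hε hε1
  refine ⟨2 * B + 6 + A + 1, ⌈Real.exp (10 ^ 11)⌉₊, ?_⟩
  intro N hN q hq hqB χ D K h a hD hDN hDK hDK2 hh ha
  have hNexp : Real.exp (10 ^ 11) ≤ N := (Nat.le_ceil _).trans (by exact_mod_cast hN)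
  have hNp : (0 : ℝ) < N := (Real.exp_pos _).trans_le hNexp
  obtain ⟨L, hL⟩ : ∃ L, L = Real.log N := ⟨_, rfl⟩
  have hL11 : (10 : ℝ) ^ 11 ≤ L := by
    rw [hL, Real.le_log_iff_exp_le hNp]
    exact hNexp
  have hL1 : 1 ≤ L := le_trans (by norm_num) hL11
  have hLp : 0 < L := by linarith
  have hNL : (N : ℝ) = Real.exp L := by rw [hL, Real.exp_log hNp]
  rw [← hL] at hqB ha ⊢
  have hDp : (0 : ℝ) < D := by exact_mod_cast hD
  have hN1 : (1 : ℝ) ≤ N := by
    rw [hNL]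
    exact Real.one_le_exp hLp.le
  -- bounds for K
  have hDKr : (N : ℝ) ^ 3 ≤ 64 * ((D : ℝ) * K) := by exact_mod_cast hDK
  have hDKr2 : (D : ℝ) * K ≤ 64 * (N : ℝ) ^ 3 := by exact_mod_cast hDK2
  have hKpos : 0 < K := by
    rcases Nat.eq_zero_or_pos K with h0 | h0
    · rw [h0] at hDKr
      simp only [Nat.cast_zero, mul_zero] at hDKr
      exact absurd hDKr (not_le.2 (by positivity))
    · exact h0
  have hKr : (0 : ℝ) < K := by exact_mod_cast hKpos
  have hK1 : (N : ℝ) ^ (14 / 5 : ℝ) ≤ 64 * K := by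
    have h1 : (N : ℝ) ^ 3 ≤ (N : ℝ) ^ (1 / 5 : ℝ) * (64 * K) := by
      calc (N : ℝ) ^ 3 ≤ 64 * ((D : ℝ) * K) := hDKr
        _ = D * (64 * K) := by ring
        _ ≤ _ := by gcongr
    have h2 : (N : ℝ) ^ 3 = (N : ℝ) ^ (1 / 5 : ℝ) * (N : ℝ) ^ (14 / 5 : ℝ) := by
      rw [← Real.rpow_add hNp, ← Real.rpow_natCast]
      norm_num
    rw [h2] at h1
    exact le_of_mul_le_mul_left h1 (Real.rpow_pos_of_pos hNp _)
  have hK2 : (K : ℝ) ≤ 64 * (N : ℝ) ^ 3 := by
    have : (1 : ℝ) * K ≤ D * K := by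
      gcongr
      exact_mod_cast hD
    linarith
  have hlog2K : Real.log ((2 * K : ℕ) : ℝ) ≤ 4 * L := by
    have h1 : ((2 * K : ℕ) : ℝ) ≤ 128 * (N : ℝ) ^ 3 := by
      push_cast
      linarith
    have h2 : Real.log ((2 * K : ℕ) : ℝ) ≤ Real.log (128 * (N : ℝ) ^ 3) :=
      Real.log_le_log (by push_cast; positivity) h1
    rw [Real.log_mul (by norm_num) (by positivity), Real.log_pow, ← hL] at h2
    have h3 : Real.log 128 ≤ 128 - 1 := Real.log_le_sub_one_of_pos (by norm_num)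
    have h4 : ((3 : ℕ) : ℝ) = 3 := by norm_num
    rw [h4] at h2
    have h5 : (127 : ℝ) ≤ 10 ^ 11 := by norm_num
    linarith
  -- growth
  have hgrow : 256 * L * (N : ℝ) ^ (11 / 5 : ℝ) ≤ (N : ℝ) ^ (14 / 5 : ℝ) := by
    have h1 : (N : ℝ) ^ (14 / 5 : ℝ) = (N : ℝ) ^ (3 / 5 : ℝ) * (N : ℝ) ^ (11 / 5 : ℝ) := by
      rw [← Real.rpow_add hNp]
      norm_num
    rw [h1]
    have h2 : 256 * L ≤ (N : ℝ) ^ (3 / 5 : ℝ) := by
      rw [hNL, ← Real.exp_mul]
      have h3 := Real.quadratic_le_exp_of_nonneg (x := L * (3 / 5)) (by positivity)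
      have h4 : (1423 : ℝ) ≤ L := le_trans (by norm_num) hL11
      nlinarith
    gcongr
  -- the bound on the set
  have hbd : ∀ t ∈ Tset ε (2 * B + 6 + A + 1) N,
      ‖DPb D a t‖ ^ 2 * ‖DPb K (fun k => χ (k : ZMod q) * (Real.log k : ℂ) ^ h) t‖ ^ 2 ≤
        (64 * 176) ^ 2 * (N : ℝ) ^ 6 * L ^ (2 * B + 6) / t ^ 2 := by
    intro t ht
    obtain ⟨ht1, ht2⟩ := ht
    rw [← hL] at ht1
    have hL0 : 1 ≤ L ^ (2 * B + 6 + A + 1) := one_le_pow₀ hL1
    have ht1' : 1 ≤ |t| := hL0.trans ht1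
    have htp : 0 < |t| := by linarith
    have ht0 : t ≠ 0 := abs_pos.1 htp
    have ht3 : |t| ^ 2 ≤ (N : ℝ) ^ (11 / 5 : ℝ) := by
      have h1 : |t| ≤ (N : ℝ) ^ (11 / 10 : ℝ) := by
        refine ht2.trans (Real.rpow_le_rpow_of_exponent_le hN1 (by linarith))
      calc |t| ^ 2 ≤ ((N : ℝ) ^ (11 / 10 : ℝ)) ^ 2 := by gcongr
        _ = _ := by
          rw [← Real.rpow_natCast, ← Real.rpow_mul hNp.le]
          norm_num
    -- |t|^2 * 4 L ≤ K
    have ht4 : |t| * (4 * L) ≤ K / |t| := by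
      rw [le_div_iff₀ htp]
      have h1 : 256 * L * |t| ^ 2 ≤ 64 * K := by
        calc 256 * L * |t| ^ 2 ≤ 256 * L * (N : ℝ) ^ (11 / 5 : ℝ) := by gcongr
          _ ≤ _ := hgrow.trans hK1
      nlinarith
    have ht5 : (1 : ℝ) ≤ K / |t| := by
      refine le_trans ?_ ht4
      nlinarith
    have hE : ∀ n, K ≤ n → n ≤ 2 * K → ‖∑ k ∈ Ico K n, χ (k : ZMod q) * nit t k‖ ≤
        22 * (q * (K / |t|)) := by
      intro n hn1 hn2
      refine (TI_block em q hq χ t ht0 K hKpos n hn1 hn2).trans ?_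
      have h1 : 4 * ((2 * K : ℕ) : ℝ) / |t| + 2 + |t| * Real.log ((2 * K : ℕ) : ℝ) ≤
          11 * (K / |t|) := by
        have h2 : |t| * Real.log ((2 * K : ℕ) : ℝ) ≤ |t| * (4 * L) := by gcongr
        have h3 : 4 * ((2 * K : ℕ) : ℝ) / |t| = 8 * (K / |t|) := by
          push_cast
          ring
        rw [h3]
        linarith
      have hq0 : (0 : ℝ) < q := by exact_mod_cast hq
      have h4 := mul_le_mul_of_nonneg_left h1 hq0.le
      linarith
    have hDK3 : ‖DPb K (fun k => χ (k : ZMod q) * (Real.log k : ℂ) ^ h) t‖ ≤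
        176 * L ^ (B + 1) * (K / |t|) := by
      have hqq : 0 ≤ (q : ℝ) * (K / |t|) := by positivity
      have hfin : 22 * (q * (K / |t|)) * (8 * L) ≤ 176 * L ^ (B + 1) * (K / |t|) := by
        have : (q : ℝ) * (L * (K / |t|)) ≤ L ^ B * (L * (K / |t|)) := by gcongr
        rw [pow_succ]
        nlinarith
      refine le_trans ?_ hfin
      unfold DPb
      interval_cases h
      · have h1 := hE (2 * K) (by omega) le_rfl
        simp only [pow_zero, mul_one]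
        refine h1.trans ?_
        nlinarith
      · have h1 := TI_abel (fun k => χ (k : ZMod q) * nit t k) K hKpos _ hE
        simp only [pow_one]
        have h2 : ∑ k ∈ Ico K (2 * K), χ (k : ZMod q) * (Real.log k : ℂ) * nit t k =
            ∑ k ∈ Ico K (2 * K), χ (k : ZMod q) * nit t k * (Real.log k : ℂ) :=
          Finset.sum_congr rfl fun k _ => by ring
        rw [h2]
        refine h1.trans ?_
        nlinarith
    have hDD : ‖DPb D a t‖ ≤ D * L ^ 2 := by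
      unfold DPb
      refine (norm_sum_le _ _).trans ?_
      have h1 : ∀ m ∈ Ico D (2 * D), ‖a m * nit t m‖ ≤ L ^ 2 := by
        intro m _
        rw [norm_mul, TI_nit_norm, mul_one]
        exact ha m
      refine (Finset.sum_le_sum h1).trans ?_
      rw [Finset.sum_const, Nat.card_Ico, nsmul_eq_mul]
      have : 2 * D - D = D := by omega
      rw [this]
    have h1 : ‖DPb D a t‖ * ‖DPb K (fun k => χ (k : ZMod q) * (Real.log k : ℂ) ^ h) t‖ ≤
        (64 * 176) * (N : ℝ) ^ 3 * L ^ (B + 3) / |t| := by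
      calc ‖DPb D a t‖ * ‖DPb K (fun k => χ (k : ZMod q) * (Real.log k : ℂ) ^ h) t‖
          ≤ (D * L ^ 2) * (176 * L ^ (B + 1) * (K / |t|)) := by gcongr
        _ = ((D : ℝ) * K) * (176 * L ^ (B + 3) / |t|) := by
          rw [show B + 3 = 2 + (B + 1) from by ring, pow_add]
          ring
        _ ≤ (64 * (N : ℝ) ^ 3) * (176 * L ^ (B + 3) / |t|) := by gcongr
        _ = _ := by ring
    calc ‖DPb D a t‖ ^ 2 * ‖DPb K (fun k => χ (k : ZMod q) * (Real.log k : ℂ) ^ h) t‖ ^ 2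
        = (‖DPb D a t‖ * ‖DPb K (fun k => χ (k : ZMod q) * (Real.log k : ℂ) ^ h) t‖) ^ 2 := by
          ring
      _ ≤ ((64 * 176) * (N : ℝ) ^ 3 * L ^ (B + 3) / |t|) ^ 2 := by gcongr
      _ = _ := by
        rw [div_pow, sq_abs]
        congr 1
        rw [show 2 * B + 6 = (B + 3) * 2 from by ring, pow_mul]
        ring
  have hT0 : 0 < L ^ (2 * B + 6 + A + 1) := by positivity
  have hmain := TI_int (L ^ (2 * B + 6 + A + 1)) ((64 * 176) ^ 2 * (N : ℝ) ^ 6 * L ^ (2 * B + 6))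
    hT0 (by positivity) (Tset ε (2 * B + 6 + A + 1) N) (TI_meas _ _ _)
    (fun t ht => by rw [hL]; exact ht.1)
    (fun t => ‖DPb D a t‖ ^ 2 * ‖DPb K (fun k => χ (k : ZMod q) * (Real.log k : ℂ) ^ h) t‖ ^ 2)
    (fun t => by positivity) hbd
  refine hmain.trans ?_
  rw [div_le_div_iff₀ hT0 (by positivity)]
  have hpi : Real.pi ≤ 4 := Real.pi_le_four
  have h1 : 2 * Real.pi * (64 * 176) ^ 2 ≤ L := by
    have : 2 * Real.pi * (64 * 176) ^ 2 ≤ 2 * 4 * (64 * 176) ^ 2 := by gcongr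
    refine this.trans (le_trans (by norm_num) hL11)
  calc 2 * Real.pi * ((64 * 176) ^ 2 * (N : ℝ) ^ 6 * L ^ (2 * B + 6)) * L ^ A
      = (2 * Real.pi * (64 * 176) ^ 2) * ((N : ℝ) ^ 6 * L ^ (2 * B + 6) * L ^ A) := by ring
    _ ≤ L * ((N : ℝ) ^ 6 * L ^ (2 * B + 6) * L ^ A) := by gcongr
    _ = (N : ℝ) ^ 6 * L ^ (2 * B + 6 + A + 1) := by
      rw [pow_add, pow_add, pow_one]
      ring

end Pool.Agent.CH
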